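import Pool.Agent.Helper58.R3.Stmts

set_option autoImplicit false
open Classical

namespace Pool.Agent.Helper58.R3

open Pool.Agent.Helper77.SND (Copy C3)

theorem st_KC3 : ST_KC3 := by
  intro m H hC F hF hcard x0
  obtain ⟨hm, hC⟩ := hC
  by_contra hx0
  push Not at hx0
  obtain ⟨hx1, hx2⟩ := hx0
  have hpq : ∃ p q : Fin m, ∀ x ∈ nb H F, x = p ∨ x = q := by
    rcases Nat.lt_or_ge (nb H F).card 1 with h | h
    · have h0 : nb H F = ∅ := by
        apply Finset.card_eq_zero.mp
        omega
      refine ⟨x0, x0, ?_⟩
      intro x hx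
      rw [h0] at hx
      exact absurd hx (Finset.notMem_empty x)
    · rcases Nat.lt_or_ge (nb H F).card 2 with h2 | h2
      · have h1 : (nb H F).card = 1 := by omega
        obtain ⟨p, hp⟩ := Finset.card_eq_one.mp h1
        refine ⟨p, p, ?_⟩
        intro x hx
        rw [hp] at hx
        left
        exact Finset.mem_singleton.mp hx
      · have h1 : (nb H F).card = 2 := by omega
        obtain ⟨p, q, _, hp⟩ := Finset.card_eq_two.mp h1
        refine ⟨p, q, ?_⟩
        intro x hx
        rw [hp] at hx
        simpa using hx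
  obtain ⟨p, q, hpq⟩ := hpq
  obtain ⟨f, hf⟩ := hF
  obtain ⟨x, y, hx, hy, hxy⟩ := hC
    (fun x => if x ∈ F then some true else if x ∈ nb H F then none else some false) p q
    (by
      intro x hx
      by_cases h1 : x ∈ F
      · simp [h1] at hx
      · by_cases h2 : x ∈ nb H F
        · exact hpq x h2
        · simp [h1, h2] at hx)
    ⟨f, by simp [hf]⟩ ⟨x0, by simp [hx1, hx2]⟩
  have hxF : x ∈ F := by
    by_contra h1
    by_cases h2 : x ∈ nb H F
    · simp [h1, h2] at hx
    · simp [h1, h2] at hx
  have hyF : y ∉ F ∧ y ∉ nb H F := by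
    constructor
    · intro h1
      simp [h1] at hy
    · intro h2
      have h1 : y ∉ F := by
        unfold nb at h2
        simp only [Finset.mem_filter] at h2
        exact h2.2.1
      simp [h1, h2] at hy
  apply hyF.2
  unfold nb
  simp only [Finset.mem_filter, Finset.mem_univ, true_and]
  exact ⟨hyF.1, x, hxF, hxy⟩

end Pool.Agent.Helper58.R3
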